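import Pool.Agent.H670R2.SimplexMain

/-!
# Largest simplices in parallelotopes: `NP`-hardness for all `γ` is equivalent to `P = NP`

The conjecture asks whether for every function `γ` with `1 ≤ γ(n) ≤ n` the problem `Π_γ` (largest
`γ(n)`-simplex in an `n`-dimensional parallelotope given by rational inequalities) is `NP`-hard.
We show that the conjecture, for the decision versions and polynomial-time many-one reductions, is
equivalent to `P = NP`; already the case `γ(n) = n` is `NP`-hard only if `P = NP`.

Idea.  For `γ(n) = n` the answer depends only on the ratio of the threshold and the squared volume of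
the parallelotope, compared with one unknown constant for each dimension.  From a redundant system
of inequalities the facets of the parallelotope, and hence its volume, are found in polynomial
time (greedy maximisation of Gram determinants among the normals of the slabs formed by opposite
inequalities, `Pool.Agent.H670R2.Para.extreme`).  If the problem were `NP`-hard, one could decide any
language in `NP` by extending prefixes of certificates and keeping, for each dimension, only the
prefix whose image under the reduction has the smallest ratio (`Pool.Agent.NPC.H670R2.collapse`).
-/

namespace Pool.Agent.Results.MP_4249f6_lc.HardIffPEqNP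

open Pool.Agent.NPC Pool.Agent.H670R2.Simplex

/-- the functions `γ` considered in the problem -/
def Admissible (γ : ℕ → ℕ) : Prop := ∀ n, 1 ≤ n → 1 ≤ γ n ∧ γ n ≤ n

/-- The following are equivalent: `P = NP`; for every admissible `γ` the problem `Π_γ` is `NP`-hard
(under reductions with values in the valid instances, or as a language); the problem `Π_γ` with
`γ(n) = n` is `NP`-hard (in the same two senses). -/
theorem result : List.TFAE [
    PEqNP,
    ∀ γ : ℕ → ℕ, Admissible γ → HardOnValid γ,
    ∀ γ : ℕ → ℕ, Admissible γ → NPHardP (SimplexProblem γ),
    HardOnValid (fun n => n),
    NPHardP (SimplexProblem fun n => n)] := by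
  have hid : Admissible (fun n => n) := fun n hn => ⟨hn, le_rfl⟩
  tfae_have 1 → 2 := fun h γ hγ => hardOnValid_of_peqnp h (by
    have := hγ 1 le_rfl
    omega)
  tfae_have 2 → 3 := fun h γ hγ => (h γ hγ).npHardP
  tfae_have 2 → 4 := fun h => h _ hid
  tfae_have 4 → 5 := fun h => h.npHardP
  tfae_have 3 → 5 := fun h => h _ hid
  tfae_have 5 → 1 := peqnp_of_hard
  tfae_finish

end Pool.Agent.Results.MP_4249f6_lc.HardIffPEqNP
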